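import Mathlib

set_option autoImplicit false

namespace Pool.Agent.R272.HalfLog

/-- The Laplacian of a function of two real variables. -/
noncomputable def lap (f : ℝ × ℝ → ℝ) (p : ℝ × ℝ) : ℝ :=
  deriv (deriv fun s => f (s, p.2)) p.1 + deriv (deriv fun s => f (p.1, s)) p.2

/-- `φ` is a positive Dirichlet eigenfunction of the Laplacian in `Ω ⊆ ℝ²`: it is smooth on the
plane, `-Δφ = lam φ` and `φ > 0` in `Ω`, and `φ = 0` on `∂Ω`. -/
def IsPosEigenfunction (Ω : Set (ℝ × ℝ)) (lam : ℝ) (φ : ℝ × ℝ → ℝ) : Prop :=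
  ContDiff ℝ 2 φ ∧ (∀ p ∈ Ω, -lap φ p = lam * φ p) ∧ (∀ p ∈ Ω, 0 < φ p) ∧
    ∀ p ∈ frontier Ω, φ p = 0

end Pool.Agent.R272.HalfLog
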