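import Pool.Agent.R272.HalfLog.Defs

set_option autoImplicit false

namespace Pool.Agent.R272.HalfLog

open Real

/-- The three angles. -/
noncomputable def t1 (p : ℝ × ℝ) : ℝ := 2 * π / 3 + p.2
noncomputable def t2 (p : ℝ × ℝ) : ℝ := 2 * π / 3 - √3 / 2 * p.1 - p.2 / 2
noncomputable def t3 (p : ℝ × ℝ) : ℝ := 2 * π / 3 + √3 / 2 * p.1 - p.2 / 2

theorem t_sum (p : ℝ × ℝ) : t1 p + t2 p + t3 p = 2 * π := by unfold t1 t2 t3; ring

/-- The equilateral triangle. -/
def Om : Set (ℝ × ℝ) := {p | 0 < t1 p ∧ 0 < t2 p ∧ 0 < t3 p}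

/-- The unnormalised eigenfunction. -/
noncomputable def S (p : ℝ × ℝ) : ℝ := sin (t1 p) + sin (t2 p) + sin (t3 p)

/-- The normalised eigenfunction. -/
noncomputable def phi (p : ℝ × ℝ) : ℝ := 2 / (3 * √3) * S p

theorem S_prod (p : ℝ × ℝ) : S p = 4 * sin (t1 p / 2) * sin (t2 p / 2) * sin (t3 p / 2) := by
  have h3 : t3 p = 2 * π - (t1 p + t2 p) := by have := t_sum p; linarith
  have e3 : sin (t3 p) = - sin (t1 p + t2 p) := by
    rw [h3, sin_two_pi_sub]
  have e3' : sin (t3 p / 2) = sin (t1 p / 2 + t2 p / 2) := by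
    rw [show t3 p / 2 = π - (t1 p / 2 + t2 p / 2) by rw [h3]; ring, sin_pi_sub]
  unfold S
  rw [e3, e3']
  obtain ⟨a, ha⟩ : ∃ a, a = t1 p / 2 := ⟨_, rfl⟩
  obtain ⟨b, hb⟩ : ∃ b, b = t2 p / 2 := ⟨_, rfl⟩
  have ha2 : t1 p = 2 * a := by rw [ha]; ring
  have hb2 : t2 p = 2 * b := by rw [hb]; ring
  rw [← ha, ← hb, ha2, hb2, sin_add, sin_add a b, sin_two_mul, sin_two_mul, cos_two_mul, cos_two_mul]
  have sa := sin_sq_add_cos_sq a
  have sb := sin_sq_add_cos_sq b
  have ca : cos a ^ 2 = 1 - sin a ^ 2 := by linarith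
  have cb : cos b ^ 2 = 1 - sin b ^ 2 := by linarith
  rw [ca, cb]
  ring

theorem angles_lt {p : ℝ × ℝ} (h1 : 0 ≤ t1 p) (h2 : 0 ≤ t2 p) (h3 : 0 ≤ t3 p) :
    t1 p ≤ 2 * π ∧ t2 p ≤ 2 * π ∧ t3 p ≤ 2 * π := by
  have := t_sum p
  exact ⟨by linarith, by linarith, by linarith⟩

theorem phi_pos {p : ℝ × ℝ} (hp : p ∈ Om) : 0 < phi p := by
  obtain ⟨h1, h2, h3⟩ := hp
  have hs := t_sum p
  have a1 : 0 < sin (t1 p / 2) := sin_pos_of_pos_of_lt_pi (by linarith) (by linarith)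
  have a2 : 0 < sin (t2 p / 2) := sin_pos_of_pos_of_lt_pi (by linarith) (by linarith)
  have a3 : 0 < sin (t3 p / 2) := sin_pos_of_pos_of_lt_pi (by linarith) (by linarith)
  unfold phi
  rw [S_prod]
  positivity

theorem sqrt3_sq : √3 * √3 = 3 := Real.mul_self_sqrt (by norm_num)

theorem phi_le_one {p : ℝ × ℝ} (hp : p ∈ Om) : phi p ≤ 1 := by
  obtain ⟨h1, h2, h3⟩ := hp
  have hs := t_sum p
  have a3 : 0 < sin (t3 p / 2) := sin_pos_of_pos_of_lt_pi (by linarith) (by linarith)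
  have e1 : 2 * (sin (t1 p / 2) * sin (t2 p / 2)) = cos (t1 p / 2 - t2 p / 2) + cos (t3 p / 2) := by
    rw [show t3 p / 2 = π - (t1 p / 2 + t2 p / 2) by linarith, cos_pi_sub, cos_sub, cos_add]
    ring
  have e2 : 2 * (sin (t1 p / 2) * sin (t2 p / 2)) ≤ 1 + cos (t3 p / 2) := by
    rw [e1]; linarith [cos_le_one (t1 p / 2 - t2 p / 2)]
  obtain ⟨s, hs'⟩ : ∃ s, s = sin (t3 p / 2) := ⟨_, rfl⟩
  obtain ⟨c, hc'⟩ : ∃ c, c = cos (t3 p / 2) := ⟨_, rfl⟩
  have hsc : s ^ 2 + c ^ 2 = 1 := by rw [hs', hc']; exact sin_sq_add_cos_sq _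
  rw [← hs'] at a3
  rw [← hc'] at e2
  have hS : S p ≤ 2 * (1 + c) * s := by
    rw [S_prod, ← hs']
    nlinarith
  have hc1 : -1 ≤ c := by rw [hc']; exact neg_one_le_cos _
  have hsq : (2 * (1 + c) * s) ^ 2 ≤ (3 * √3 / 2) ^ 2 := by
    have e5 : (3 * √3 / 2) ^ 2 = 27 / 4 := by
      rw [div_pow, mul_pow, Real.sq_sqrt (by norm_num)]; norm_num
    rw [e5]
    have e6 : (2 * (1 + c) * s) ^ 2 = 4 * (1 + c) ^ 2 * (1 - c ^ 2) := by
      rw [← hsc]; ring
    rw [e6]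
    have e7 : 27 / 4 - 4 * (1 + c) ^ 2 * (1 - c ^ 2) =
        4 * (c - 1 / 2) ^ 2 * ((c + 3 / 2) ^ 2 + 1 / 2) := by ring
    have e8 : 0 ≤ 4 * (c - 1 / 2) ^ 2 * ((c + 3 / 2) ^ 2 + 1 / 2) := by positivity
    linarith
  have h3p : 0 < √3 := Real.sqrt_pos.mpr (by norm_num)
  have hle : 2 * (1 + c) * s ≤ 3 * √3 / 2 := by
    exact le_of_sq_le_sq hsq (by positivity)
  unfold phi
  rw [div_mul_eq_mul_div, div_le_one (by positivity)]
  linarith

theorem continuous_t : Continuous t1 ∧ Continuous t2 ∧ Continuous t3 := by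
  refine ⟨?_, ?_, ?_⟩ <;> (first | unfold t1 | unfold t2 | unfold t3) <;> fun_prop

theorem isOpen_Om : IsOpen Om := by
  obtain ⟨c1, c2, c3⟩ := continuous_t
  exact (isOpen_lt continuous_const c1).inter
    ((isOpen_lt continuous_const c2).inter (isOpen_lt continuous_const c3))

theorem convex_Om : Convex ℝ Om := by
  intro p hp q hq a b ha hb hab
  obtain ⟨h1, h2, h3⟩ := hp
  obtain ⟨k1, k2, k3⟩ := hq
  have key : ∀ x y : ℝ, 0 < x → 0 < y → 0 < a * x + b * y := by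
    intro x y hx hy
    rcases ha.eq_or_lt with h | h
    · have : b = 1 := by linarith
      rw [← h, this]; linarith
    · have : 0 < a * x := mul_pos h hx
      have : 0 ≤ b * y := mul_nonneg hb hy.le
      linarith
  have hb' : b = 1 - a := by linarith
  refine ⟨?_, ?_, ?_⟩
  · have e : t1 (a • p + b • q) = a * t1 p + b * t1 q := by
      simp only [t1, Prod.snd_add, Prod.smul_snd, smul_eq_mul, hb']; ring
    rw [e]; exact key _ _ h1 k1
  · have e : t2 (a • p + b • q) = a * t2 p + b * t2 q := by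
      simp only [t2, Prod.snd_add, Prod.smul_snd, Prod.fst_add, Prod.smul_fst, smul_eq_mul, hb']
      ring
    rw [e]; exact key _ _ h2 k2
  · have e : t3 (a • p + b • q) = a * t3 p + b * t3 q := by
      simp only [t3, Prod.snd_add, Prod.smul_snd, Prod.fst_add, Prod.smul_fst, smul_eq_mul, hb']
      ring
    rw [e]; exact key _ _ h3 k3

theorem bounded_Om : Bornology.IsBounded Om := by
  apply (Metric.isBounded_Icc ((-10 * π, -10 * π) : ℝ × ℝ) ((10 * π, 10 * π) : ℝ × ℝ)).subset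
  rintro ⟨x, y⟩ ⟨h1, h2, h3⟩
  have hpi := Real.pi_pos
  have hs := t_sum (x, y)
  simp only [t1, t2, t3] at h1 h2 h3
  have h3p : 1 ≤ √3 := by
    rw [show (1 : ℝ) = √1 by simp]
    exact Real.sqrt_le_sqrt (by norm_num)
  have hy1 : -(2 * π / 3) < y := by linarith
  have hy2 : y < 4 * π / 3 := by linarith
  have hx : |√3 / 2 * x| ≤ π := by
    rw [abs_le]; constructor <;> linarith
  rw [abs_mul, abs_of_nonneg (by positivity : (0 : ℝ) ≤ √3 / 2)] at hx
  have hx2 : |x| ≤ 2 * π := by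
    have := abs_nonneg x
    nlinarith
  have hx3 := abs_le.mp hx2
  constructor
  · constructor <;> simp only <;> linarith
  · constructor <;> simp only <;> linarith

theorem S_eq_zero {p : ℝ × ℝ} (h : t1 p = 0 ∨ t2 p = 0 ∨ t3 p = 0) : S p = 0 := by
  rw [S_prod]
  rcases h with h | h | h <;> rw [h] <;> simp

theorem phi_frontier {p : ℝ × ℝ} (hp : p ∈ frontier Om) : phi p = 0 := by
  obtain ⟨c1, c2, c3⟩ := continuous_t
  have hcl : p ∈ closure Om := hp.1
  have hnot : p ∉ Om := by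
    have := hp.2
    rwa [isOpen_Om.interior_eq] at this
  have hsub : closure Om ⊆ {p | 0 ≤ t1 p ∧ 0 ≤ t2 p ∧ 0 ≤ t3 p} := by
    apply closure_minimal
    · rintro q ⟨h1, h2, h3⟩
      exact ⟨h1.le, h2.le, h3.le⟩
    · exact (isClosed_le continuous_const c1).inter
        ((isClosed_le continuous_const c2).inter (isClosed_le continuous_const c3))
  obtain ⟨h1, h2, h3⟩ := hsub hcl
  have hz : t1 p = 0 ∨ t2 p = 0 ∨ t3 p = 0 := by
    by_contra hc
    push Not at hc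
    exact hnot ⟨lt_of_le_of_ne h1 (Ne.symm hc.1), lt_of_le_of_ne h2 (Ne.symm hc.2.1),
      lt_of_le_of_ne h3 (Ne.symm hc.2.2)⟩
  unfold phi
  rw [S_eq_zero hz, mul_zero]

theorem contDiff_phi : ContDiff ℝ 2 phi := by
  unfold phi S t1 t2 t3
  fun_prop

/-- Second derivative of a sum of sines of affine functions. -/
theorem second_deriv (C a1 b1 a2 b2 a3 b3 x : ℝ) :
    deriv (deriv fun s => C * (sin (a1 + b1 * s) + sin (a2 + b2 * s) + sin (a3 + b3 * s))) x =
      -(C * (b1 ^ 2 * sin (a1 + b1 * x) + b2 ^ 2 * sin (a2 + b2 * x) +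
        b3 ^ 2 * sin (a3 + b3 * x))) := by
  have hl : ∀ a b s : ℝ, HasDerivAt (fun s : ℝ => a + b * s) b s := by
    intro a b s
    simpa using ((hasDerivAt_id s).const_mul b).const_add a
  have h1 : (deriv fun s => C * (sin (a1 + b1 * s) + sin (a2 + b2 * s) + sin (a3 + b3 * s))) =
      fun s => C * (cos (a1 + b1 * s) * b1 + cos (a2 + b2 * s) * b2 + cos (a3 + b3 * s) * b3) := by
    funext s
    exact ((((hl a1 b1 s).sin.add (hl a2 b2 s).sin).add (hl a3 b3 s).sin).const_mul C).deriv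
  rw [h1]
  have h2 := (((((hl a1 b1 x).cos.mul_const b1).add ((hl a2 b2 x).cos.mul_const b2)).add
    ((hl a3 b3 x).cos.mul_const b3)).const_mul C).deriv
  refine Eq.trans h2 ?_
  ring

theorem lap_phi (p : ℝ × ℝ) : -lap phi p = 1 * phi p := by
  obtain ⟨x, y⟩ := p
  have hx : (fun s => phi (s, y)) = fun s => 2 / (3 * √3) *
      (sin ((2 * π / 3 + y) + 0 * s) + sin ((2 * π / 3 - y / 2) + (-(√3 / 2)) * s) +
        sin ((2 * π / 3 - y / 2) + (√3 / 2) * s)) := by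
    funext s
    simp only [phi, S, t1, t2, t3]
    congr 2
    · congr 1
      · congr 1; ring
      · congr 1; ring
    · congr 1; ring
  have hy : (fun s => phi (x, s)) = fun s => 2 / (3 * √3) *
      (sin ((2 * π / 3) + 1 * s) + sin ((2 * π / 3 - √3 / 2 * x) + (-(1 / 2)) * s) +
        sin ((2 * π / 3 + √3 / 2 * x) + (-(1 / 2)) * s)) := by
    funext s
    simp only [phi, S, t1, t2, t3]
    congr 2
    · congr 1
      · congr 1; ring
      · congr 1; ring
    · congr 1; ring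
  unfold lap
  simp only
  rw [hx, hy, second_deriv, second_deriv]
  have e1 : 2 * π / 3 + y + 0 * x = t1 (x, y) := by unfold t1; ring
  have e2 : 2 * π / 3 - y / 2 + -(√3 / 2) * x = t2 (x, y) := by unfold t2; ring
  have e3 : 2 * π / 3 - y / 2 + √3 / 2 * x = t3 (x, y) := by unfold t3; ring
  have e4 : 2 * π / 3 + 1 * y = t1 (x, y) := by unfold t1; ring
  have e5 : 2 * π / 3 - √3 / 2 * x + -(1 / 2) * y = t2 (x, y) := by unfold t2; ring
  have e6 : 2 * π / 3 + √3 / 2 * x + -(1 / 2) * y = t3 (x, y) := by unfold t3; ring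
  rw [e1, e2, e3, e4, e5, e6]
  have h3 : (√3 / 2) ^ 2 = 3 / 4 := by
    rw [div_pow, Real.sq_sqrt (by norm_num)]; norm_num
  have h4 : (-(√3 / 2)) ^ 2 = 3 / 4 := by rw [neg_sq, h3]
  rw [h3, h4]
  unfold phi S
  ring

/-- Values along the axis. -/
theorem phi_zero : phi (0, 0) = 1 := by
  have e : sin (2 * π / 3) = √3 / 2 := by
    rw [show 2 * π / 3 = π - π / 3 by ring, sin_pi_sub, sin_pi_div_three]
  simp only [phi, S, t1, t2, t3, mul_zero, add_zero, sub_zero, zero_div]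
  rw [e]
  have : √3 ≠ 0 := (Real.sqrt_pos.mpr (by norm_num)).ne'
  field_simp
  ring

theorem phi_two : phi (0, π / 3) = 2 / (3 * √3) * 2 := by
  simp only [phi, S, t1, t2, t3, mul_zero, add_zero, sub_zero]
  rw [show 2 * π / 3 + π / 3 = π by ring, show 2 * π / 3 - π / 3 / 2 = π / 2 by ring, sin_pi,
    sin_pi_div_two]
  norm_num

theorem phi_one_eq : phi (0, π / 6) = 2 / (3 * √3) * (1 / 2 + 2 * sin (π / 4 + π / 6)) := by
  have e1 : sin (2 * π / 3 + π / 6) = 1 / 2 := by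
    rw [show 2 * π / 3 + π / 6 = π - π / 6 by ring, sin_pi_sub, sin_pi_div_six]
  have e2 : sin (2 * π / 3 - π / 6 / 2) = sin (π / 4 + π / 6) := by
    rw [show 2 * π / 3 - π / 6 / 2 = π - (π / 4 + π / 6) by ring, sin_pi_sub]
  simp only [phi, S, t1, t2, t3, mul_zero, add_zero, sub_zero]
  rw [e1, e2]
  ring

theorem sin75 : sin (π / 4 + π / 6) ≤ 0.96593 := by
  rw [sin_add, sin_pi_div_four, cos_pi_div_six, cos_pi_div_four, sin_pi_div_six]
  have h2 : √2 ≤ 1.414214 := by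
    rw [Real.sqrt_le_left (by norm_num)]; norm_num
  have h3 : √3 ≤ 1.732051 := by
    rw [Real.sqrt_le_left (by norm_num)]; norm_num
  have h20 : 0 ≤ √2 := Real.sqrt_nonneg _
  have h30 : 0 ≤ √3 := Real.sqrt_nonneg _
  have h4 : √2 * √3 ≤ 1.414214 * 1.732051 := mul_le_mul h2 h3 h30 (by norm_num)
  norm_num at h2 h3 h4 ⊢
  linarith

theorem key_ineq : phi (0, π / 6) ^ 4 < phi (0, π / 3) := by
  rw [phi_one_eq, phi_two]
  have h := sin75
  have h0 : 0 ≤ sin (π / 4 + π / 6) := by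
    apply sin_nonneg_of_nonneg_of_le_pi
    · positivity
    · linarith [Real.pi_pos]
  set σ := sin (π / 4 + π / 6)
  have h3p : 0 < √3 := Real.sqrt_pos.mpr (by norm_num)
  have h33 : √3 ^ 2 = 3 := Real.sq_sqrt (by norm_num)
  have h34 : √3 ^ 4 = 9 := by
    calc √3 ^ 4 = (√3 ^ 2) ^ 2 := by ring
      _ = 9 := by rw [h33]; norm_num
  have hlow : (1.732 : ℝ) ≤ √3 := by
    apply Real.le_sqrt_of_sq_le; norm_num
  have e1 : (2 / (3 * √3) * (1 / 2 + 2 * σ)) ^ 4 = 16 / 729 * (1 / 2 + 2 * σ) ^ 4 := by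
    rw [mul_pow, div_pow, mul_pow, h34]; norm_num
  have e2 : 2 / (3 * √3) * 2 = 4 * √3 / 9 := by
    field_simp
    rw [h33]; norm_num
  rw [e1, e2]
  have h5 : (1 / 2 + 2 * σ) ^ 4 ≤ (2.43186) ^ 4 := by
    apply pow_le_pow_left₀ (by positivity)
    norm_num at h ⊢
    linarith
  norm_num at h5 hlow ⊢
  linarith

theorem mem_Om (y : ℝ) (h1 : -(2 * π / 3) < y) (h2 : y < 4 * π / 3) : ((0 : ℝ), y) ∈ Om := by
  refine ⟨?_, ?_, ?_⟩
  · unfold t1; simp only; linarith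
  · unfold t2; simp only; linarith
  · unfold t3; simp only; linarith

theorem not_convex : ¬ ConvexOn ℝ Om fun p => √(-log (phi p)) := by
  intro hc
  have hpi := Real.pi_pos
  have m0 := mem_Om 0 (by linarith) (by linarith)
  have m1 := mem_Om (π / 6) (by linarith) (by linarith)
  have m2 := mem_Om (π / 3) (by linarith) (by linarith)
  have h := hc.2 m0 m2 (by norm_num : (0 : ℝ) ≤ 1 / 2) (by norm_num : (0 : ℝ) ≤ 1 / 2) (by norm_num)
  have e : ((1 : ℝ) / 2) • ((0 : ℝ), (0 : ℝ)) + ((1 : ℝ) / 2) • ((0 : ℝ), π / 3) = (0, π / 6) := by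
    ext <;> simp
    ring
  rw [e] at h
  simp only [phi_zero, log_one, neg_zero, sqrt_zero, smul_eq_mul, mul_zero, zero_add] at h
  have p1 := phi_pos m1
  have p2 := phi_pos m2
  have l1 := phi_le_one m1
  have l2 := phi_le_one m2
  have n1 : 0 ≤ -log (phi (0, π / 6)) := by
    have := log_nonpos p1.le l1; linarith
  have n2 : 0 ≤ -log (phi (0, π / 3)) := by
    have := log_nonpos p2.le l2; linarith
  have hsq : -log (phi (0, π / 6)) ≤ 1 / 4 * -log (phi (0, π / 3)) := by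
    have h1 := Real.sq_sqrt n1
    have h2 := Real.sq_sqrt n2
    have h3 := Real.sqrt_nonneg (-log (phi (0, π / 6)))
    have h4 := Real.sqrt_nonneg (-log (phi (0, π / 3)))
    rw [← h1, ← h2]
    nlinarith
  have hk := Real.log_lt_log (by positivity) key_ineq
  rw [Real.log_pow] at hk
  push_cast at hk
  linarith

theorem main : IsOpen Om ∧ Convex ℝ Om ∧ Bornology.IsBounded Om ∧ Om.Nonempty ∧
    IsPosEigenfunction Om 1 phi ∧ (∀ p ∈ Om, phi p ≤ 1) ∧
      ¬ ConvexOn ℝ Om fun p => √(-log (phi p)) := by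
  have hpi := Real.pi_pos
  exact ⟨isOpen_Om, convex_Om, bounded_Om, ⟨_, mem_Om 0 (by linarith) (by linarith)⟩,
    ⟨contDiff_phi, fun p _ => lap_phi p, fun p hp => phi_pos hp, fun p hp => phi_frontier hp⟩,
    fun p hp => phi_le_one hp, not_convex⟩

end Pool.Agent.R272.HalfLog
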